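import Mathlib
import Pool.Agent.EngelNI.Resid2

/-!
# Engel elements in groups without involutions: a residually finite-3 counterexample

There is a group `G` generated by three elements `a`, `b`, `c`, residually a finite `3`-group
(so without elements of order two), in which `a`, `b` and `a * b` have order three, `a` and `b`
are Engel elements and `a * b` is not an Engel element.
-/

set_option autoImplicit false

namespace Pool.Agent.Results.MP_eb9bd3_al.ResiduallyThree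

theorem result :
    ∃ (G : Type) (_ : Group G) (a b c : G),
      Subgroup.closure {a, b, c} = ⊤ ∧
      (∀ g : G, g ≠ 1 → ∃ N : Subgroup G, N.Normal ∧ (∃ k : ℕ, N.index = 3 ^ k) ∧ g ∉ N) ∧
      (∀ x : G, IsOfFinOrder x → ∃ k : ℕ, orderOf x = 3 ^ k) ∧
      (∀ x : G, x ^ 2 = 1 → x = 1) ∧
      orderOf a = 3 ∧ orderOf b = 3 ∧ orderOf (a * b) = 3 ∧
      (∀ h : G, ∃ k : ℕ, 1 ≤ k ∧ (fun x : G => x⁻¹ * a⁻¹ * x * a)^[k] h = 1) ∧
      (∀ h : G, ∃ k : ℕ, 1 ≤ k ∧ (fun x : G => x⁻¹ * b⁻¹ * x * b)^[k] h = 1) ∧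
      (∀ k : ℕ, (fun x : G => x⁻¹ * (a * b)⁻¹ * x * (a * b))^[k] c ≠ 1) ∧
      ¬ ∃ H : Subgroup G, ∀ g : G,
        g ∈ H ↔ ∀ h : G, ∃ k : ℕ, 1 ≤ k ∧ (fun x : G => x⁻¹ * g⁻¹ * x * g)^[k] h = 1 := by
  obtain ⟨G, inst, a, b, c, h1, h2, h3, h4, h5, h6, h7, h8, h9, h10⟩ :=
    Pool.EngelNI.exists_residual_counterexample
  have up : ∀ g : G, (∀ h : G, ∃ k : ℕ, (fun x : G => x⁻¹ * g⁻¹ * x * g)^[k] h = 1) →
      ∀ h : G, ∃ k : ℕ, 1 ≤ k ∧ (fun x : G => x⁻¹ * g⁻¹ * x * g)^[k] h = 1 := by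
    intro g hg h
    obtain ⟨k, hk⟩ := hg h
    refine ⟨k + 1, by omega, ?_⟩
    rw [Function.iterate_succ_apply', hk]
    simp
  refine ⟨G, inst, a, b, c, h1, h2, h3, h4, h5, h6, h7, up a h8, up b h9, h10, ?_⟩
  rintro ⟨H, hH⟩
  have hab : a * b ∈ H := H.mul_mem ((hH a).mpr (up a h8)) ((hH b).mpr (up b h9))
  obtain ⟨k, -, hk⟩ := (hH (a * b)).mp hab c
  exact h10 k hk

end Pool.Agent.Results.MP_eb9bd3_al.ResiduallyThree
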